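import Mathlib

namespace Pool.Agent.Results.MP_50e481_nt.Bose

open Polynomial

section Defs
variable (F : Type) {K : Type} [Field F] [Field K] [Algebra F K]

/-- `θ ^ b` has degree `h` over `F` -/
def Adm (h : ℕ) (θ : K) (b : ℕ) : Prop := (minpoly F (θ ^ b)).natDegree = h

/-- the set `Bose_h(q, b)` in `ℤ / M`, `M = q ^ h - 1` -/
def BoseSet (M : ℕ) (θ : K) (b : ℕ) : Set (ZMod M) :=
  {a | ∃ v : F, θ ^ a.val = θ ^ b + algebraMap F K v}

/-- affine equivalence of subsets of `ℤ / M` -/
def AffEq {M : ℕ} (A B : Set (ZMod M)) : Prop :=
  ∃ d s : ZMod M, IsUnit d ∧ B = (fun a => d * a + s) '' A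

/-- `b`, `e` are admissible and satisfy (i), (ii) or (iii) -/
def Rel (p q h : ℕ) (θ : K) (b e : ℕ) : Prop :=
  Adm F h θ b ∧ Adm F h θ e ∧ (b ≡ e [MOD (q ^ h - 1) / (q - 1)] ∨
    (∃ v : F, θ ^ b - θ ^ e = algebraMap F K v) ∨ ∃ i : ℕ, b ≡ p ^ i * e [MOD q ^ h - 1])

end Defs

lemma exists_field (p : ℕ) [Fact p.Prime] (f : (ZMod p)[X]) (hf : 0 < f.natDegree) :
    ∃ (K : Type) (_ : Field K) (_ : Algebra (ZMod p) K) (_ : Finite K) (θ : K),
      aeval θ f = 0 ∧ Nat.card K ≤ p ^ f.natDegree := by
  obtain ⟨g, hg, hgf⟩ := exists_irreducible_of_natDegree_pos hf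
  haveI := Fact.mk hg
  have hf0 : f ≠ 0 := by rintro rfl; simp at hf
  let pb := AdjoinRoot.powerBasis hg.ne_zero
  haveI : Module.Finite (ZMod p) (AdjoinRoot g) := pb.finite
  refine ⟨AdjoinRoot g, inferInstance, inferInstance, Module.finite_of_finite (ZMod p),
    AdjoinRoot.root g, ?_, ?_⟩
  · obtain ⟨c, rfl⟩ := hgf
    simp
  · rw [Module.natCard_eq_pow_finrank (K := ZMod p), pb.finrank, Nat.card_zmod]
    exact Nat.pow_le_pow_right (Fact.out : p.Prime).pos (natDegree_le_of_dvd hgf hf0)

lemma pow_deg {F K : Type} [Field F] [Field K] [Algebra F K] [Finite K] (x : K) :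
    x ^ Nat.card F ^ (minpoly F x).natDegree = x := by
  have hi : IsIntegral F x := Algebra.IsIntegral.isIntegral x
  haveI := Fintype.ofFinite (IntermediateField.adjoin F {x})
  have h1 := FiniteField.pow_card (IntermediateField.AdjoinSimple.gen F x)
  rw [← Nat.card_eq_fintype_card, Module.natCard_eq_pow_finrank (K := F),
    IntermediateField.adjoin.finrank hi] at h1
  exact congrArg Subtype.val h1

def D (k i : ℕ) : ZMod 3 := ((82441852921902828394244780060820233485638358385417395266480135537695219584058700964038539712506183074704340153313070615085539031538158899242022665396016501315993979966722928263203404091053456210970215488357937136378911875511951337343591240746738052124031827357360995264301107842533523042150554151615813285387033233977350620001479659670007564142692794204214371895272136294803683008588443936981753713329010919970402584628788842580860366233386323443383384682173180638606593956481158437209007143628215040867924250872894539014524793489338850088035012418122580205762805630312996527097736671164894601640357750957619954433302450180882258366418388054050185630196543501021991255898683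70150279913378606108313600480147097842799990485483102532399253881527650015359798587654651961196956383118119220463058042633595796781263064745105585666653473361359853362533934904690481807107137275586920448183030034048054123137440577679006741438923130557814653673419695964272399703484052709840839462473054769272758201378052176072420058626818256193909597950793458800705387334556839977970166618532835280877857641842176584793112393094727794263937099286388166859963567668195789193094011448637169114514321478088748569724921712415567937378202395874870866866813346388153859626110623340775771360729425709830256852455412367943098826781668551965745874663175052944112808769556975811487045703595285176824246685156788555892337524786059068385898522562104918684784887549247087585641073430575380104280379606710157411892392578936330089745144354508562370078754559668669050388854244129897821653897628604455970829233473678597406790836787949099488001320054799245103298006415177280619312114324667409470154718961037634252794797889470482413918221895736420468955309707030474652239406446678922541308545466149976309218480802619137791153687875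4224629201882770786398075761678432806852467805856937767089208925938292058679312165487980245790453145199166857297902335378200585841567286246051067858067520349965879149764649798573252219829973186725922751198342408593073420272235204198502455379580279543595253424130379495303729038238832380972264095946902087516103804131458632539501522303299337996701224202075843131443592005637994113924964813546422808100982789150844730632632698190821331716855660761729342046632956556706796924530481728968042749060228788971833589512289721019626394406484741208672162391571967950124362269811794068025785611853116134129603914662672661133756845088170181436597883414998781811065893388254546922538122743259962396168730487707897645704774539889910050610792806172045677313769183402862473047541696388379861723395504626875990687045155835601592750415319842837800681411199385601 >>> (12 * k + 2 * i) % 4 : ℕ) : ZMod 3)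

def Z (k : ℕ) : ℕ := 222324410149966736725337860735990937970256309524761435597240471654826081680118621297770237647710102331265337215642188486853499407937842705285492640478965890953158195989676250446334034439942151013731457105018276666891096678876913663438466100484089270693496332962669782711762572883408383766846989901520924534403476999590846771364832497323553652352859622838993745088629635271559761958705519040161313313097438757034149258779874202280511352366531137383715346418384340676535209878442468144600456867488271307878062691567970421590837442183388249616113546884147727604614723072254451323353734193377925769673455290056969617025763152020972796217438633726869418866563665610298382129222207030532664460220470619606631190195975919057935809864259547699723704345598971781889672504114927149035784056795400056959030443136093272259752575463867153010830082083540500655383774650419467057389350757095492039666157513554951135662328707836873043943400720330366838258117716182789294214279033235932924606833762484384526325506323992786794050459765923272145243740150769827105302886768092433138571961407225528457127485257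21796281851440954515672529892305255784711829245705853491418126122565225500079837994192397287112259227366729986947902315024967265884810123631182032088137012170684541226619624225658968227167923579918306128034582241949434047114086100036763441317175892259626168061592724580183870972102992995136069987440994924334100076805960765808909171730450692409770654088709080412547512995730631592450110048857355274157594720044321719878944442157056075183802921744291317152650810789798441957182004417246800758410406100387626890996354962765501697497092199887601965829476274789854808186368503221917913819984605576237205603980688041986315144185316332690239704705658422844987467552756022899276950796163321140888252262376670439421519474408527043932356455302176599783678994041408901470008649394848897783677541653083420111417059997261170522679333529892411614958533165710671341678820260993016489002629302658285652136098847686738280358449638660929421518511595166547118686163227797869893601768117366674815961964138270986745848463361357951403902779566147458393259421614930794454240517372606432732911088074880978855437605015192817004 >>> (10 *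 k) % 1024

def S (k : ℕ) : Bool := Nat.testBit 9568131470583130362810445395274446867050747559575255631912774483777106441731365756480595659058739141766753659797128780717184582852356034178090779503180291425909797825676518065027952659035581879158784 k

lemma cD : ∀ k < 728, D (k + 1) 0 = D k 5 ∧ D (k + 1) 1 = D k 0 ∧ D (k + 1) 2 = D k 1 ∧
    D (k + 1) 3 = D k 2 ∧ D (k + 1) 4 = D k 3 ∧ D (k + 1) 5 = D k 4 - D k 5 := by decide +kernel

lemma cZ : ∀ k < 728, k ≠ 364 → Z k < 728 ∧ S (Z k) = S k ∧ D (Z k) 0 = D k 0 + 1 ∧
    D (Z k) 1 = D k 1 ∧ D (Z k) 2 = D k 2 ∧ D (Z k) 3 = D k 3 ∧ D (Z k) 4 = D k 4 ∧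
    D (Z k) 5 = D k 5 := by decide +kernel

lemma cS : ∀ k < 728, S ((k + 364) % 728) = S k ∧ S (3 * k % 728) = S k := by decide +kernel

section
variable {K : Type} [Field K] [Algebra (ZMod 3) K] {θ : K}

def φ (θ : K) (k : ℕ) : K :=
  algebraMap _ K (D k 0) + algebraMap _ K (D k 1) * θ + algebraMap _ K (D k 2) * θ ^ 2 +
    algebraMap _ K (D k 3) * θ ^ 3 + algebraMap _ K (D k 4) * θ ^ 4 +
    algebraMap _ K (D k 5) * θ ^ 5

lemma φ_const {k : ℕ} {c : ZMod 3}
    (h : D k 0 = c ∧ D k 1 = 0 ∧ D k 2 = 0 ∧ D k 3 = 0 ∧ D k 4 = 0 ∧ D k 5 = 0) :
    φ θ k = algebraMap _ K c := by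
  obtain ⟨h0, h1, h2, h3, h4, h5⟩ := h
  simp [φ, h0, h1, h2, h3, h4, h5]

lemma pow_eq (h : θ ^ 6 + θ ^ 5 - 1 = 0) : ∀ k ≤ 728, θ ^ k = φ θ k := by
  intro k
  induction k with
  | zero => intro _; rw [φ_const (c := 1) (by decide +kernel)]; simp
  | succ k ih =>
    intro hk
    obtain ⟨h0, h1, h2, h3, h4, h5⟩ := cD k (by omega)
    rw [pow_succ, ih (by omega)]
    simp only [φ, h0, h1, h2, h3, h4, h5, map_sub]
    linear_combination algebraMap _ K (D k 5) * h

lemma zech (h : θ ^ 6 + θ ^ 5 - 1 = 0) (k : ℕ) (hk : k < 728) (hk' : k ≠ 364) :
    θ ^ Z k = θ ^ k + 1 := by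
  obtain ⟨h6, -, h0, h1, h2, h3, h4, h5⟩ := cZ k hk hk'
  rw [pow_eq h _ h6.le, pow_eq h _ hk.le]
  simp only [φ, h0, h1, h2, h3, h4, h5, map_add, map_one]
  ring

lemma prim (h : θ ^ 6 + θ ^ 5 - 1 = 0) : IsPrimitiveRoot θ 728 := by
  have h0 : θ ≠ 0 := by rintro rfl; simp at h
  have key : ∀ k < 728, k ≠ 364 → θ ^ Z k ≠ 1 := fun k hk hk' => by
    rw [zech h k hk hk']
    simpa using fun h => absurd h h0
  have : orderOf θ = 728 := by
    refine orderOf_eq_of_pow_and_pow_div_prime (by norm_num) ?_ fun p hp hd => ?_
    · rw [pow_eq h _ le_rfl, φ_const (c := 1) (by decide +kernel), map_one]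
    · have h1 : p ∈ Nat.primeFactors 728 := Nat.mem_primeFactors.2 ⟨hp, hd, by norm_num⟩
      have h2 : Nat.primeFactors 728 = {2, 7, 13} := by decide +kernel
      simp only [h2, Finset.mem_insert, Finset.mem_singleton] at h1
      rcases h1 with rfl | rfl | rfl
      · exact (show Z 0 = 728 / 2 by decide +kernel) ▸ key 0 (by norm_num) (by norm_num)
      · exact (show Z 150 = 728 / 7 by decide +kernel) ▸ key 150 (by norm_num) (by norm_num)
      · exact (show Z 336 = 728 / 13 by decide +kernel) ▸ key 336 (by norm_num) (by norm_num)
  exact this ▸ IsPrimitiveRoot.orderOf θ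

lemma pow_inj (h : θ ^ 6 + θ ^ 5 - 1 = 0) {a b : ℕ} : θ ^ a = θ ^ b ↔ a % 728 = b % 728 := by
  have h1 := (prim h).eq_orderOf
  rw [← pow_mod_orderOf θ a, ← pow_mod_orderOf θ b, ← h1]
  exact ⟨fun h2 => (prim h).pow_inj (Nat.mod_lt _ (by norm_num)) (Nat.mod_lt _ (by norm_num)) h2,
    fun h2 => by rw [h2]⟩

lemma shift (h : θ ^ 6 + θ ^ 5 - 1 = 0) {b e : ℕ} (hb : θ ^ b = θ ^ e + 1) :
    S (b % 728) = S (e % 728) := by
  have h0 : θ ≠ 0 := by rintro rfl; simp at h
  have he : θ ^ e = θ ^ (e % 728) := (pow_inj h).2 (by omega)
  have hk : e % 728 < 728 := Nat.mod_lt _ (by norm_num)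
  have hk' : e % 728 ≠ 364 := fun hc => by
    rw [he, hc, pow_eq h 364 (by norm_num), φ_const (c := -1) (by decide +kernel)] at hb
    exact pow_ne_zero b h0 (by simpa using hb)
  obtain ⟨h6, h7, -⟩ := cZ _ hk hk'
  rw [he, ← zech h _ hk hk', pow_inj h, Nat.mod_eq_of_lt h6] at hb
  rw [hb, h7]

lemma inv (h : θ ^ 6 + θ ^ 5 - 1 = 0) {b e : ℕ}
    (hr : Relation.EqvGen (Rel (ZMod 3) 3 3 6 θ) b e) : S (b % 728) = S (e % 728) := by
  induction hr with
  | refl => rfl
  | symm _ _ _ ih => exact ih.symm
  | trans _ _ _ _ _ ih1 ih2 => exact ih1.trans ih2
  | rel b e hr =>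
    obtain ⟨-, -, h1 | ⟨v, hv⟩ | ⟨i, hi⟩⟩ := hr
    · have h2 : b % 364 = e % 364 := h1
      have h3 : b % 728 = e % 728 ∨ b % 728 = (e % 728 + 364) % 728 := by omega
      rcases h3 with h3 | h3
      · rw [h3]
      · rw [h3, (cS _ (Nat.mod_lt _ (by norm_num))).1]
    · have h2 : ∀ v : ZMod 3, v = 0 ∨ v = 1 ∨ v = -1 := by decide
      rcases h2 v with rfl | rfl | rfl
      · rw [(pow_inj h).1 (by simpa [sub_eq_zero] using hv)]
      · exact shift h (by rw [map_one] at hv; linear_combination hv)
      · exact (shift h (by rw [map_neg, map_one] at hv; linear_combination -hv)).symm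
    · have h2 : b % 728 = 3 ^ i * e % 728 := hi
      rw [h2]
      clear h2 hi
      induction i with
      | zero => simp
      | succ i ih =>
        rw [← ih, ← (cS _ (Nat.mod_lt (3 ^ i * e) (by norm_num))).2, pow_succ]
        congr 1
        rw [Nat.mul_mod_mod]
        ring_nf

lemma bose_eq (h : θ ^ 6 + θ ^ 5 - 1 = 0) {b : ℕ} (hb : b < 728) (h1 : b ≠ 364)
    (h2 : Z b ≠ 364) : BoseSet (ZMod 3) 728 θ b = {(b : ZMod 728), (Z b : ZMod 728),
      (Z (Z b) : ZMod 728)} := by
  have h3 := zech h b hb h1
  have h4 := zech h _ (cZ b hb h1).1 h2
  have key : ∀ (a : ZMod 728) (k : ℕ), θ ^ a.val = θ ^ k ↔ a = (k : ZMod 728) := fun a k => by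
    rw [pow_inj h, ← ZMod.natCast_eq_natCast_iff', ZMod.natCast_zmod_val]
  ext a
  simp only [BoseSet, Set.mem_ofPred_eq, Set.mem_insert_iff, Set.mem_singleton_iff, ← key, h4, h3]
  constructor
  · rintro ⟨v, hv⟩
    have h2 : ∀ v : ZMod 3, v = 0 ∨ v = 1 ∨ v = 1 + 1 := by decide
    rcases h2 v with rfl | rfl | rfl
    · left; simpa using hv
    · right; left; simpa using hv
    · right; right; rw [hv, map_add, map_one, add_assoc]
  · rintro (hv | hv | hv)
    · exact ⟨0, by simpa using hv⟩
    · exact ⟨1, by simpa using hv⟩
    · exact ⟨1 + 1, by rw [hv, map_add, map_one, add_assoc]⟩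

lemma adm [Finite K] (h : θ ^ 6 + θ ^ 5 - 1 = 0) (hc : Nat.card K = 3 ^ 6) {b : ℕ}
    (hb : ∀ d < 6, 0 < d → b * 3 ^ d % 728 ≠ b % 728) : Adm (ZMod 3) 6 θ b := by
  have h1 := pow_deg (F := ZMod 3) (θ ^ b)
  rw [← pow_mul, pow_inj h, Nat.card_zmod] at h1
  have h2 := minpoly.natDegree_le (A := ZMod 3) (θ ^ b)
  have h3 := minpoly.natDegree_pos (A := ZMod 3) (Algebra.IsIntegral.isIntegral (θ ^ b))
  rw [Module.natCard_eq_pow_finrank (K := ZMod 3), Nat.card_zmod] at hc
  rw [Nat.pow_right_injective (by norm_num) hc] at h2
  by_contra hne
  exact hb _ (lt_of_le_of_ne h2 hne) h3 h1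

end

theorem result : ∃ (F K : Type) (_ : Field F) (_ : Field K) (_ : Algebra F K) (θ : K) (b e : ℕ),
    Nat.card F = 3 ∧ Nat.card K = 3 ^ 6 ∧ IsPrimitiveRoot θ (3 ^ 6 - 1) ∧
    Adm F 6 θ b ∧ Adm F 6 θ e ∧
    AffEq (BoseSet F (3 ^ 6 - 1) θ b) (BoseSet F (3 ^ 6 - 1) θ e) ∧
    ¬ Relation.EqvGen (Rel F 3 3 6 θ) b e := by
  have hd : (X ^ 6 + X ^ 5 - 1 : (ZMod 3)[X]).natDegree = 6 := by compute_degree!
  obtain ⟨K, _, _, _, θ, h, hc⟩ := exists_field 3 (X ^ 6 + X ^ 5 - 1) (by omega)
  rw [hd] at hc
  simp only [map_sub, map_add, map_pow, aeval_X, map_one] at h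
  have hc' : Nat.card K = 3 ^ 6 := by
    haveI := Fintype.ofFinite K
    have h0 : θ ≠ 0 := by rintro rfl; simp at h
    have h1 := (prim h).dvd_of_pow_eq_one _ (FiniteField.pow_card_sub_one_eq_one θ h0)
    have h2 : 1 < Fintype.card K := Fintype.one_lt_card
    have h3 := Nat.le_of_dvd (by omega) h1
    rw [Nat.card_eq_fintype_card] at hc ⊢
    omega
  refine ⟨ZMod 3, K, inferInstance, inferInstance, inferInstance, θ, 11, 31, Nat.card_zmod 3, hc',
    prim h, adm h hc' (by decide +kernel), adm h hc' (by decide +kernel), ?_, fun hr => ?_⟩
  · show AffEq (BoseSet (ZMod 3) 728 θ 11) (BoseSet (ZMod 3) 728 θ 31)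
    rw [bose_eq h (by norm_num) (by norm_num) (by decide +kernel),
      bose_eq h (by norm_num) (by norm_num) (by decide +kernel)]
    refine ⟨517, 168, IsUnit.of_mul_eq_one 69 (by decide +kernel), ?_⟩
    simp only [Set.image_insert_eq, Set.image_singleton]
    congr 1
  · exact absurd (inv h hr) (by decide +kernel)

end Pool.Agent.Results.MP_50e481_nt.Bose
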